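import Pool.Agent.Lib.MP_f7aa1b_gt.H.Glue

/-!
Every compact Dupin submanifold embedded in Euclidean space is taut (full positive answer to Q1).
-/

open MPf7aa

theorem Pool.Agent.Results.MP_f7aa1b_gt.Taut.result {n d : ℕ} (M : Set (E n))
    (hc : IsCompact M) (hM : IsSubmfd d M) (hD : IsDupin M) : IsTaut d M :=
  MPf7aa.isTaut_of_dupin M hc hM hD
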